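import Mathlib

/-!
# Groups of order automorphisms with the Kopell property
-/

set_option autoImplicit false

namespace Pool.Agent.H91.KP

/-- The Kopell property of a group of automorphisms of a linearly ordered set: if `h` and `w`
commute, `h p < p` and `w p = p`, then `w` fixes all points between `h p` and `p`. -/
def Kopell {X : Type} [LinearOrder X] (𝒢 : Subgroup (X ≃o X)) : Prop :=
  ∀ h ∈ 𝒢, ∀ w ∈ 𝒢, Commute h w → ∀ p : X, h p < p → w p = p → ∀ z : X, h p ≤ z → z ≤ p → w z = z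

/-- The centralizer property: an element of the group that commutes with two elements `U` and `V` of
the group fixes all points that are moved by the commutator of `U` and `V`. -/
def CentProp {X : Type} [LinearOrder X] (𝒢 : Subgroup (X ≃o X)) : Prop :=
  ∀ U ∈ 𝒢, ∀ V ∈ 𝒢, ∀ h ∈ 𝒢, Commute h U → Commute h V →
    ∀ x : X, (U * V * U⁻¹ * V⁻¹) x ≠ x → h x = x

variable {X : Type} [LinearOrder X] {𝒢 : Subgroup (X ≃o X)}

theorem core {f g : X ≃o X} (hf : Kopell 𝒢 ∧ f ∈ 𝒢) (hg : g ∈ 𝒢)
    (hc : Commute f g) {p : X} (hp : f p < p) (hgp : g p = p) {x : X}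
    (h1 : f p ≤ x) (h3 : x ≤ p) : g x = x :=
  hf.1 f hf.2 g hg hc p hp hgp x h1 h3

lemma pow_apply_succ (f : X ≃o X) (n : ℕ) (x : X) :
    (f ^ (n + 1)) x = (f ^ n) (f x) := by
  rw [pow_succ, RelIso.mul_apply]

lemma pow_apply_succ' (f : X ≃o X) (n : ℕ) (x : X) :
    (f ^ (n + 1)) x = f ((f ^ n) x) := by
  rw [pow_succ', RelIso.mul_apply]

lemma comm_apply {f g : X ≃o X} (h : Commute f g) (x : X) :
    f (g x) = g (f x) := by
  rw [← RelIso.mul_apply, ← RelIso.mul_apply, h.eq]

lemma pow_anti {f : X ≃o X} {b : X} (hb : f b ≤ b) :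
    Antitone fun n : ℕ => (f ^ n) b := by
  apply antitone_nat_of_succ_le
  intro n
  rw [pow_apply_succ]
  exact (f ^ n).monotone hb

end Pool.Agent.H91.KP
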