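import Pool.Agent.H91.KP.Fix

/-!
# Kopell groups of conditionally complete linear orders have the centralizer property

Two end points are added to the order.
-/

set_option autoImplicit false

namespace Pool.Agent.H91.KP

variable {X : Type} [ConditionallyCompleteLinearOrder X]

/-- the extension of an automorphism of `X` to `X` with two end points -/
def extHom (X : Type) [ConditionallyCompleteLinearOrder X] :
    (X ≃o X) →* (WithBot (WithTop X) ≃o WithBot (WithTop X)) where
  toFun f := f.withTopCongr.withBotCongr
  map_one' := by
    ext x
    induction x using WithBot.recBotCoe with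
    | bot => rfl
    | coe x =>
      induction x using WithTop.recTopCoe with
      | top => rfl
      | coe x => rfl
  map_mul' f g := by
    ext x
    induction x using WithBot.recBotCoe with
    | bot => rfl
    | coe x =>
      induction x using WithTop.recTopCoe with
      | top => rfl
      | coe x => rfl

lemma extHom_coe (f : X ≃o X) (x : X) :
    extHom X f ((x : WithTop X) : WithBot (WithTop X)) = ((f x : WithTop X) : WithBot (WithTop X)) :=
  rfl

lemma extHom_bot (f : X ≃o X) : extHom X f ⊥ = ⊥ := rfl

lemma extHom_top (f : X ≃o X) :
    extHom X f ((⊤ : WithTop X) : WithBot (WithTop X)) = ((⊤ : WithTop X) : WithBot (WithTop X)) :=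
  rfl

lemma extHom_inj : Function.Injective (extHom X) := by
  intro f g h
  ext x
  have h1 := extHom_coe f x
  rw [h, extHom_coe] at h1
  exact (WithTop.coe_injective (WithBot.coe_injective h1)).symm

theorem kopell_ext {𝒢 : Subgroup (X ≃o X)} (K : Kopell 𝒢) : Kopell (𝒢.map (extHom X)) := by
  rintro _ ⟨h, hh, rfl⟩ _ ⟨w, hw, rfl⟩ hc p
  have hc' : Commute h w := by
    apply extHom_inj
    rw [map_mul, map_mul]
    exact hc.eq
  induction p using WithBot.recBotCoe with
  | bot =>
    intro hp
    rw [extHom_bot] at hp
    exact absurd hp (lt_irrefl _)
  | coe p =>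
    induction p using WithTop.recTopCoe with
    | top =>
      intro hp
      rw [extHom_top] at hp
      exact absurd hp (lt_irrefl _)
    | coe p =>
      intro hp hwp z
      rw [extHom_coe, WithBot.coe_lt_coe, WithTop.coe_lt_coe] at hp
      rw [extHom_coe] at hwp
      have hwp' : w p = p := WithTop.coe_injective (WithBot.coe_injective hwp)
      rw [extHom_coe]
      induction z using WithBot.recBotCoe with
      | bot =>
        intro h1
        exact absurd h1 (not_le.2 (WithBot.bot_lt_coe _))
      | coe z =>
        induction z using WithTop.recTopCoe with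
        | top =>
          intro _ h2
          rw [WithBot.coe_le_coe] at h2
          exact absurd h2 (not_le.2 (WithTop.coe_lt_top _))
        | coe z =>
          intro h1 h2
          rw [WithBot.coe_le_coe, WithTop.coe_le_coe] at h1 h2
          rw [extHom_coe, K h hh w hw hc' p hp hwp' z h1 h2]

/-- **Kopell groups of automorphisms of conditionally complete linear orders have the centralizer
property.** -/
theorem Kopell.centProp' {𝒢 : Subgroup (X ≃o X)} (K : Kopell 𝒢) : CentProp 𝒢 := by
  intro U hU V hV h hh h1 h2 x hx
  have h3 := (kopell_ext K).centProp (extHom X U) ⟨U, hU, rfl⟩ (extHom X V) ⟨V, hV, rfl⟩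
    (extHom X h) ⟨h, hh, rfl⟩ (h1.map (extHom X)) (h2.map (extHom X))
    ((x : WithTop X) : WithBot (WithTop X)) (by
      rw [← map_mul, ← map_inv, ← map_mul, ← map_inv, ← map_mul, extHom_coe]
      intro h4
      exact hx (WithTop.coe_injective (WithBot.coe_injective h4)))
  rw [extHom_coe] at h3
  exact WithTop.coe_injective (WithBot.coe_injective h3)

end Pool.Agent.H91.KP
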