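import Pool.Agent.H91.KP.Hol

/-!
# Kopell groups of complete linear orders have the centralizer property

Adapted from the library module `Y72/Ko/Fix` (there for homeomorphisms of class `P` of `[0,1]`).
-/

set_option autoImplicit false

namespace Pool.Agent.H91.KP

open Finset Set

variable {X : Type} [CompleteLinearOrder X] {𝒢 : Subgroup (X ≃o X)}

lemma inv_pow_apply (h : X ≃o X) (m : ℕ) (x : X) :
    (h ^ m) ((h⁻¹ ^ m) x) = x := by
  rw [← RelIso.mul_apply, inv_pow, mul_inv_cancel, RelIso.one_apply]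

lemma ends_aux {h U : X ≃o X} (hh : Kopell 𝒢 ∧ h ∈ 𝒢) (hU : U ∈ 𝒢)
    (hc : Commute h U) {x : X} (hx : h x < x) :
    U x < be h⁻¹ x ∧ al h x < U x := by
  have hix : x ≤ h⁻¹ x := by
    have := h⁻¹.monotone hx.le
    rwa [RelIso.inv_apply_self] at this
  have ha : h (al h x) = al h x := al_fix hx.le
  have hb' : h⁻¹ (be h⁻¹ x) = be h⁻¹ x := be_fix hix
  have hb : h (be h⁻¹ x) = be h⁻¹ x := by
    have := fix_inv hb'
    rwa [inv_inv] at this
  have hax : al h x < x := by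
    have := al_le h x 1
    rw [pow_one] at this
    exact this.trans_lt hx
  have hxb : x < be h⁻¹ x := by
    have h1 := le_be h⁻¹ x 1
    rw [pow_one] at h1
    refine lt_of_lt_of_le ?_ h1
    have := h⁻¹.strictMono hx
    rwa [RelIso.inv_apply_self] at this
  have low : ∀ c, h c = c → c ≤ x → c ≤ al h x := fun c h1 h2 => le_al h1 h2
  have upp : ∀ c, h c = c → x ≤ c → be h⁻¹ x ≤ c := fun c h1 h2 => be_le (fix_inv h1) h2
  constructor
  · by_contra hcon
    rw [not_lt] at hcon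
    have h1 : U⁻¹ (be h⁻¹ x) ≤ x := by
      have := U⁻¹.monotone hcon
      rwa [RelIso.inv_apply_self] at this
    have h2 : h (U⁻¹ (be h⁻¹ x)) = U⁻¹ (be h⁻¹ x) := by
      rw [comm_apply hc.inv_right, hb]
    have h3 : h x = x := core ⟨hh.1, 𝒢.inv_mem hU⟩ hh.2 hc.inv_right.symm (h1.trans_lt hxb) hb h1 hxb.le
    exact absurd h3 hx.ne
  · by_contra hcon
    rw [not_lt] at hcon
    have h1 : x ≤ U⁻¹ (al h x) := by
      have := U⁻¹.monotone hcon
      rwa [RelIso.inv_apply_self] at this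
    have h2 : h (U⁻¹ (al h x)) = U⁻¹ (al h x) := by
      rw [comm_apply hc.inv_right, ha]
    have h3 := U.monotone (upp _ h2 h1)
    rw [RelIso.apply_inv_self] at h3
    have h4 : h x = x := core ⟨hh.1, hU⟩ hh.2 hc.symm (h3.trans_lt (hax.trans hxb)) hb
      (h3.trans hax.le) hxb.le
    exact absurd h4 hx.ne

lemma ends {h U : X ≃o X} (hh : Kopell 𝒢 ∧ h ∈ 𝒢) (hU : U ∈ 𝒢)
    (hc : Commute h U) {x : X} (hx : h x < x) : U ∈ Cg 𝒢 h (al h x) (be h⁻¹ x) := by
  have hix : x ≤ h⁻¹ x := by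
    have := h⁻¹.monotone hx.le
    rwa [RelIso.inv_apply_self] at this
  have ha : h (al h x) = al h x := al_fix hx.le
  have hb' : h⁻¹ (be h⁻¹ x) = be h⁻¹ x := be_fix hix
  have hb : h (be h⁻¹ x) = be h⁻¹ x := by
    have := fix_inv hb'
    rwa [inv_inv] at this
  have hax : al h x < x := by
    have := al_le h x 1
    rw [pow_one] at this
    exact this.trans_lt hx
  have hxb : x < be h⁻¹ x := by
    have h1 := le_be h⁻¹ x 1
    rw [pow_one] at h1
    refine lt_of_lt_of_le ?_ h1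
    have := h⁻¹.strictMono hx
    rwa [RelIso.inv_apply_self] at this
  have low : ∀ c, h c = c → c ≤ x → c ≤ al h x := fun c h1 h2 => le_al h1 h2
  have upp : ∀ c, h c = c → x ≤ c → be h⁻¹ x ≤ c := fun c h1 h2 => be_le (fix_inv h1) h2
  have key1 : ∀ W : X ≃o X, W ∈ 𝒢 → Commute h W →
      W (al h x) ≤ al h x := by
    intro W hW hcW
    apply low
    · rw [comm_apply hcW, ha]
    · by_contra hcon
      rw [not_le] at hcon
      have h1 := upp (W (al h x)) (by rw [comm_apply hcW, ha]) hcon.le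
      have h2 := (ends_aux hh hW hcW hx).1
      exact absurd (h1.trans (W.monotone hax.le)) (not_le.2 h2)
  have key2 : ∀ W : X ≃o X, W ∈ 𝒢 → Commute h W →
      be h⁻¹ x ≤ W (be h⁻¹ x) := by
    intro W hW hcW
    apply upp
    · rw [comm_apply hcW, hb]
    · by_contra hcon
      rw [not_le] at hcon
      have h1 := low (W (be h⁻¹ x)) (by rw [comm_apply hcW, hb]) hcon.le
      have h2 := (ends_aux hh hW hcW hx).2
      exact absurd ((W.monotone hxb.le).trans h1) (not_le.2 h2)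
  refine ⟨hU, hc, le_antisymm (key1 U hU hc) ?_, le_antisymm ?_ (key2 U hU hc)⟩
  · have := U.monotone (key1 U⁻¹ (𝒢.inv_mem hU) hc.inv_right)
    rwa [RelIso.apply_inv_self] at this
  · have := U.monotone (key2 U⁻¹ (𝒢.inv_mem hU) hc.inv_right)
    rwa [RelIso.apply_inv_self] at this

lemma fix_aux {U V h : X ≃o X} (hU : U ∈ 𝒢) (hV : V ∈ 𝒢)
    (hh : Kopell 𝒢 ∧ h ∈ 𝒢) (hhU : Commute h U) (hhV : Commute h V) {x : X}
    (hx : (U * V * U⁻¹ * V⁻¹) x ≠ x) : ¬ h x < x := by
  intro hhx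
  apply hx
  have hUC := ends hh hU hhU hhx
  have hVC := ends hh hV hhV hhx
  have hax : al h x < x := by
    have := al_le h x 1
    rw [pow_one] at this
    exact this.trans_lt hhx
  have hxb : x < be h⁻¹ x := by
    have h1 := le_be h⁻¹ x 1
    rw [pow_one] at h1
    refine lt_of_lt_of_le ?_ h1
    have := h⁻¹.strictMono hhx
    rwa [RelIso.inv_apply_self] at this
  have H2 : ∀ y ∈ Ioo (al h x) (be h⁻¹ x), ∀ z ∈ Ioo (al h x) (be h⁻¹ x),
      ∃ N : ℕ, (h ^ N) y < z := by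
    intro y hy z hz
    obtain ⟨n, hn⟩ := iInf_lt_iff.1 hz.1
    obtain ⟨m, hm⟩ := lt_iSup_iff.1 hy.2
    refine ⟨n + m, ?_⟩
    rw [pow_add, RelIso.mul_apply]
    have h1 := (h ^ m).strictMono hm
    rw [inv_pow_apply] at h1
    exact ((h ^ n).strictMono h1).trans hn
  have Hc : ∀ y ∈ Ioo (al h x) (be h⁻¹ x), h y < y := by
    intro y hy
    by_contra hcon
    rw [not_lt] at hcon
    obtain ⟨N, hN⟩ := H2 y hy y hy
    have h1 := pow_mono hcon (Nat.zero_le N)
    simp only [pow_zero, RelIso.one_apply] at h1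
    exact absurd hN (not_lt.2 h1)
  have hxI : x ∈ Ioo (al h x) (be h⁻¹ x) := ⟨hax, hxb⟩
  have hy := Cg_Ioo ((Cg 𝒢 h _ _).mul_mem ((Cg 𝒢 h _ _).inv_mem hUC) ((Cg 𝒢 h _ _).inv_mem hVC)) hxI
  have h1 := hol hh Hc H2 hUC hVC hy
  rw [RelIso.mul_apply] at h1
  rw [RelIso.mul_apply, RelIso.mul_apply, RelIso.mul_apply, h1, RelIso.apply_inv_self,
    RelIso.apply_inv_self]

/-- **Key lemma**: an element of class `P` commuting with `U` and with `V` fixes every point moved
by the commutator of `U` and `V`. -/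
theorem fix_supp {U V h : X ≃o X} (hU : U ∈ 𝒢) (hV : V ∈ 𝒢)
    (hh : Kopell 𝒢 ∧ h ∈ 𝒢) (hhU : Commute h U) (hhV : Commute h V) {x : X}
    (hx : (U * V * U⁻¹ * V⁻¹) x ≠ x) : h x = x := by
  rcases lt_trichotomy (h x) x with h1 | h1 | h1
  · exact absurd h1 (fix_aux hU hV hh hhU hhV hx)
  · exact h1
  · exfalso
    apply fix_aux hU hV ⟨hh.1, 𝒢.inv_mem hh.2⟩ hhU.inv_left hhV.inv_left hx
    have := h⁻¹.strictMono h1
    rwa [RelIso.inv_apply_self] at this

/-- **Kopell groups of automorphisms of complete linear orders have the centralizer property.** -/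
theorem Kopell.centProp (K : Kopell 𝒢) : CentProp 𝒢 :=
  fun _ hU _ hV _ hh h1 h2 _ hx => fix_supp hU hV ⟨K, hh⟩ h1 h2 hx

end Pool.Agent.H91.KP
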