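import Pool.Agent.H91.KP.Basic
import Pool.Graph.R_seed8.Y72.Ko.Defs

/-!
# Increasing homeomorphisms of `[0,1]` that are of class `P` on `[0,c]` for all `c < 1`

Kopell's lemma for this group; adapted from the library module `Y72/Ko/Kop`.
-/

set_option autoImplicit false

namespace Pool.Agent.H91.KP

open Finset
open Pool.Agent.Y72.Ko (ls quo_pos ls_mul ls_one ls_inv)

/-- `f` is of class `P` on `[0, c]`: there is a bound for all sums of the differences
`|log ((f y_i - f x_i) / (y_i - x_i)) - log ((f w_i - f z_i) / (w_i - z_i))|`, where `[x_i, y_i]` and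
`[z_i, w_i]` are subintervals of intervals `[a_i, b_i] ⊆ [0, c]` which do not overlap. -/
def IsPOn (c : unitInterval) (f : unitInterval ≃o unitInterval) : Prop :=
  ∃ V : ℝ, ∀ (s : Finset ℕ) (a b x y z w : ℕ → unitInterval),
    (∀ i ∈ s, ∀ j ∈ s, i ≠ j → b i ≤ a j ∨ b j ≤ a i) →
    (∀ i ∈ s, a i ≤ x i ∧ x i < y i ∧ y i ≤ b i ∧ a i ≤ z i ∧ z i < w i ∧ w i ≤ b i) →
    (∀ i ∈ s, b i ≤ c) →
    ∑ i ∈ s, |ls f (x i) (y i) - ls f (z i) (w i)| ≤ V

lemma isPOn_one (c : unitInterval) : IsPOn c 1 := by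
  refine ⟨0, fun s a b x y z w _ h _ => ?_⟩
  apply le_of_eq
  apply Finset.sum_eq_zero
  intro i hi
  obtain ⟨_, h1, _, _, h2, _⟩ := h i hi
  rw [ls_one h1, ls_one h2, sub_self, abs_zero]

lemma IsPOn.mul {c : unitInterval} {f g : unitInterval ≃o unitInterval} (hf : IsPOn (g c) f)
    (hg : IsPOn c g) : IsPOn c (f * g) := by
  obtain ⟨V, hV⟩ := hf
  obtain ⟨W, hW⟩ := hg
  refine ⟨V + W, fun s a b x y z w hd h hc => ?_⟩
  have h1 := hV s (fun i => g (a i)) (fun i => g (b i)) (fun i => g (x i)) (fun i => g (y i))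
    (fun i => g (z i)) (fun i => g (w i))
    (fun i hi j hj hij => (hd i hi j hj hij).imp (fun h => g.monotone h) (fun h => g.monotone h))
    (fun i hi => by
      obtain ⟨h1, h2, h3, h4, h5, h6⟩ := h i hi
      exact ⟨g.monotone h1, g.strictMono h2, g.monotone h3, g.monotone h4, g.strictMono h5,
        g.monotone h6⟩)
    (fun i hi => g.monotone (hc i hi))
  have h2 := hW s a b x y z w hd h hc
  refine le_trans ?_ (add_le_add h1 h2)
  rw [← Finset.sum_add_distrib]
  apply Finset.sum_le_sum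
  intro i hi
  obtain ⟨_, h3, _, _, h4, _⟩ := h i hi
  rw [ls_mul f g h3, ls_mul f g h4]
  refine le_trans (le_of_eq ?_) (abs_add_le _ _)
  congr 1
  ring

lemma IsPOn.inv {c : unitInterval} {f : unitInterval ≃o unitInterval}
    (hf : IsPOn (f⁻¹ c) f) : IsPOn c f⁻¹ := by
  obtain ⟨V, hV⟩ := hf
  refine ⟨V, fun s a b x y z w hd h hc => ?_⟩
  set g := f⁻¹ with hg
  have h1 := hV s (fun i => g (a i)) (fun i => g (b i)) (fun i => g (x i)) (fun i => g (y i))
    (fun i => g (z i)) (fun i => g (w i))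
    (fun i hi j hj hij => (hd i hi j hj hij).imp (fun h => g.monotone h) (fun h => g.monotone h))
    (fun i hi => by
      obtain ⟨h1, h2, h3, h4, h5, h6⟩ := h i hi
      exact ⟨g.monotone h1, g.strictMono h2, g.monotone h3, g.monotone h4, g.strictMono h5,
        g.monotone h6⟩)
    (fun i hi => g.monotone (hc i hi))
  refine le_trans (le_of_eq ?_) h1
  apply Finset.sum_congr rfl
  intro i hi
  obtain ⟨_, h3, _, _, h4, _⟩ := h i hi
  rw [hg, ls_inv f h3, ls_inv f h4, ← abs_neg]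
  congr 1
  ring

lemma app_lt_one (f : unitInterval ≃o unitInterval) {c : unitInterval} (hc : c < 1) : f c < 1 := by
  have h1 : f 1 = 1 := map_top f
  rw [← h1]
  exact f.strictMono hc

/-- the group of the increasing homeomorphisms of `[0,1]` that are of class `P` on `[0,c]` for all
`c < 1`, that is, of the increasing homeomorphisms of `[0,1)` of class `P` on all compact
subintervals -/
def HalfP : Subgroup (unitInterval ≃o unitInterval) where
  carrier := {f | ∀ c < 1, IsPOn c f}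
  mul_mem' := fun {_ g} h1 h2 c hc => IsPOn.mul (h1 _ (app_lt_one g hc)) (h2 c hc)
  one_mem' := fun c _ => isPOn_one c
  inv_mem' := fun {f} h _ hc => IsPOn.inv (h _ (app_lt_one f⁻¹ hc))

lemma ls_pow (f : unitInterval ≃o unitInterval) {x y : unitInterval} (h : x < y) (n : ℕ) :
    ls (f ^ n) x y = ∑ k ∈ range n, ls f ((f ^ k) x) ((f ^ k) y) := by
  induction n with
  | zero => rw [pow_zero, ls_one h, Finset.sum_range_zero]
  | succ n ih => rw [pow_succ', ls_mul _ _ h, ih, Finset.sum_range_succ, add_comm]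

lemma nonover {f : unitInterval ≃o unitInterval} {b : unitInterval} (hb : f b ≤ b) (i j : ℕ)
    (hij : i ≠ j) : (f ^ i) b ≤ (f ^ j) (f b) ∨ (f ^ j) b ≤ (f ^ i) (f b) := by
  rw [← pow_apply_succ, ← pow_apply_succ]
  rcases Nat.lt_or_gt_of_ne hij with h | h
  · right
    exact pow_anti hb h
  · left
    exact pow_anti hb h

lemma pow_le_self {f : unitInterval ≃o unitInterval} {b : unitInterval} (hb : f b ≤ b) (n : ℕ) :
    (f ^ n) b ≤ b := by
  have h1 := pow_anti hb (Nat.zero_le n)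
  simpa using h1

lemma dist_pow {f : unitInterval ≃o unitInterval} {V : ℝ} {b : unitInterval}
    (hV : ∀ (s : Finset ℕ) (a' b' x y z w : ℕ → unitInterval),
    (∀ i ∈ s, ∀ j ∈ s, i ≠ j → b' i ≤ a' j ∨ b' j ≤ a' i) →
    (∀ i ∈ s, a' i ≤ x i ∧ x i < y i ∧ y i ≤ b' i ∧ a' i ≤ z i ∧ z i < w i ∧ w i ≤ b' i) →
    (∀ i ∈ s, b' i ≤ b) →
    ∑ i ∈ s, |ls f (x i) (y i) - ls f (z i) (w i)| ≤ V) (hb : f b ≤ b) (n : ℕ)
    {x y z w : unitInterval} (h1 : f b ≤ x) (h2 : x < y) (h3 : y ≤ b) (h4 : f b ≤ z) (h5 : z < w)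
    (h6 : w ≤ b) : |ls (f ^ n) x y - ls (f ^ n) z w| ≤ V := by
  rw [ls_pow f h2, ls_pow f h5, ← Finset.sum_sub_distrib]
  refine le_trans (Finset.abs_sum_le_sum_abs _ _) ?_
  apply hV (range n) (fun k => (f ^ k) (f b)) (fun k => (f ^ k) b) (fun k => (f ^ k) x)
    (fun k => (f ^ k) y) (fun k => (f ^ k) z) (fun k => (f ^ k) w)
  · intro i _ j _ hij
    exact nonover hb i j hij
  · intro i _
    exact ⟨(f ^ i).monotone h1, (f ^ i).strictMono h2, (f ^ i).monotone h3, (f ^ i).monotone h4,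
      (f ^ i).strictMono h5, (f ^ i).monotone h6⟩
  · intro i _
    exact pow_le_self hb i

lemma small {f g : unitInterval ≃o unitInterval} (hc : Commute f g)
    {p : unitInterval} (hg : IsPOn p g) (hp : f p < p) (hgp : g p = p) {x y : unitInterval}
    (h1 : f p ≤ x) (h2 : x < y) (h3 : y ≤ p) : ∃ n : ℕ, |ls g ((f ^ n) x) ((f ^ n) y)| ≤ 1 := by
  by_contra hcon
  push Not at hcon
  obtain ⟨W, hW⟩ := hg
  have hfix : ∀ k : ℕ, g ((f ^ k) p) = (f ^ k) p := by
    intro k
    rw [← comm_apply (hc.pow_left k), hgp]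
  have hfix' : ∀ k : ℕ, g ((f ^ k) (f p)) = (f ^ k) (f p) := by
    intro k
    rw [← pow_apply_succ, hfix]
  have hzero : ∀ k : ℕ, ls g ((f ^ k) (f p)) ((f ^ k) p) = 0 := by
    intro k
    have h4 : ((f ^ k) (f p) : ℝ) < (f ^ k) p := Subtype.coe_lt_coe.2 ((f ^ k).strictMono hp)
    unfold ls
    rw [hfix, hfix', div_self (sub_pos.2 h4).ne', Real.log_one]
  obtain ⟨N, hN⟩ := exists_nat_gt W
  have h5 := hW (range N) (fun k => (f ^ k) (f p)) (fun k => (f ^ k) p) (fun k => (f ^ k) x)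
    (fun k => (f ^ k) y) (fun k => (f ^ k) (f p)) (fun k => (f ^ k) p)
    (fun i _ j _ hij => nonover hp.le i j hij)
    (fun i _ => ⟨(f ^ i).monotone h1, (f ^ i).strictMono h2, (f ^ i).monotone h3, le_rfl,
      (f ^ i).strictMono hp, le_rfl⟩)
    (fun i _ => pow_le_self hp.le i)
  have h6 : (N : ℝ) ≤ ∑ i ∈ range N, |ls g ((f ^ i) x) ((f ^ i) y) -
      ls g ((f ^ i) (f p)) ((f ^ i) p)| := by
    have h7 : (N : ℝ) = ∑ _i ∈ range N, (1 : ℝ) := by simp
    rw [h7]
    apply Finset.sum_le_sum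
    intro i _
    rw [hzero, sub_zero]
    exact (hcon i).le
  linarith

lemma core_aux {f g : unitInterval ≃o unitInterval} {p : unitInterval} (hf : IsPOn p f)
    (hg : ∀ m : ℕ, IsPOn p (g ^ m))
    (hc : Commute f g) (hp : f p < p) (hgp : g p = p) {x : unitInterval}
    (h1 : f p ≤ x) (h3 : x ≤ p) (hx : x < g x) : False := by
  obtain ⟨V, hV⟩ := hf
  have hpow : ∀ m : ℕ, (g ^ m) p = p := by
    intro m
    induction m with
    | zero => rw [pow_zero, RelIso.one_apply]
    | succ m ih => rw [pow_apply_succ, hgp, ih]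
  have hgx : g x ≤ p := by
    rw [← hgp]
    exact g.monotone h3
  have hlow : ∀ m : ℕ, -(V + 1) ≤ ls (g ^ m) x (g x) := by
    intro m
    have hcm : Commute f (g ^ m) := hc.pow_right m
    obtain ⟨n, hn⟩ := small hcm (hg m) hp (hpow m) h1 hx hgx
    have e1 : ls ((f ^ n) * (g ^ m)) x (g x) =
        ls (f ^ n) ((g ^ m) x) ((g ^ m) (g x)) + ls (g ^ m) x (g x) := ls_mul _ _ hx
    have e2 : ls ((g ^ m) * (f ^ n)) x (g x) =
        ls (g ^ m) ((f ^ n) x) ((f ^ n) (g x)) + ls (f ^ n) x (g x) := ls_mul _ _ hx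
    rw [(hcm.pow_left n).eq] at e1
    have hfp : ∀ k : ℕ, (g ^ k) (f p) = f p := by
      intro k
      rw [← comm_apply (hc.pow_right k), hpow]
    have h4 : f p ≤ (g ^ m) x := by
      rw [← hfp m]
      exact (g ^ m).monotone h1
    have h5 : (g ^ m) (g x) ≤ p := by
      conv_rhs => rw [← hpow m]
      exact (g ^ m).monotone hgx
    have h6 := dist_pow hV hp.le n h1 hx hgx h4 ((g ^ m).strictMono hx) h5
    rw [abs_le] at hn h6
    linarith [hn.1, h6.1]
  have hx' : (0 : ℝ) < (g x : ℝ) - x := sub_pos.2 (Subtype.coe_lt_coe.2 hx)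
  set δ : ℝ := Real.exp (-(V + 1)) * ((g x : ℝ) - x) with hδ
  have hδ0 : 0 < δ := mul_pos (Real.exp_pos _) hx'
  have hstep : ∀ m : ℕ, δ ≤ ((g ^ (m + 1)) x : ℝ) - (g ^ m) x := by
    intro m
    have h4 := hlow m
    have h5 := quo_pos (g ^ m) hx
    unfold ls at h4
    rw [Real.le_log_iff_exp_le h5, le_div_iff₀ hx'] at h4
    rw [pow_apply_succ]
    exact h4
  have hsum : ∀ N : ℕ, (N : ℝ) * δ ≤ ((g ^ N) x : ℝ) - x := by
    intro N
    induction N with
    | zero => rw [pow_zero, RelIso.one_apply]; simp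
    | succ N ih =>
      have h4 := hstep N
      push_cast
      linarith
  obtain ⟨N, hN⟩ := exists_nat_gt (1 / δ)
  rw [div_lt_iff₀ hδ0] at hN
  have h4 := hsum N
  have h5 : ((g ^ N) x : ℝ) ≤ 1 := ((g ^ N) x).2.2
  have h6 : (0 : ℝ) ≤ x := x.2.1
  linarith

/-- **Kopell's lemma** for the group `HalfP` -/
theorem kopell_halfP : Kopell HalfP := by
  intro f hf g hg hc p hp hgp x h1 h3
  have hp1 : p < 1 := by
    refine lt_of_le_of_ne unitInterval.le_one' fun h => ?_
    subst h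
    have h1 : f 1 = 1 := map_top f
    rw [h1] at hp
    exact lt_irrefl _ hp
  rcases lt_trichotomy x (g x) with h | h | h
  · exact (core_aux (hf p hp1) (fun m => HalfP.pow_mem hg m p hp1) hc hp hgp h1 h3 h).elim
  · exact h.symm
  · exfalso
    have hgi : g⁻¹ p = p := by
      conv_lhs => rw [← hgp]
      exact RelIso.inv_apply_self g p
    apply core_aux (hf p hp1) (fun m => HalfP.pow_mem (HalfP.inv_mem hg) m p hp1) hc.inv_right hp
      hgi h1 h3
    have h4 := g⁻¹.strictMono h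
    rwa [RelIso.inv_apply_self] at h4

/-- an automorphism that agrees on each `[0, c]`, `c < 1`, with one of class `P` belongs to
`HalfP` -/
theorem mem_halfP {f : unitInterval ≃o unitInterval}
    (h : ∀ c < 1, ∃ g ∈ Pool.Agent.Y72.Ko.PP, ∀ x ≤ c, f x = g x) : f ∈ HalfP := by
  intro c hc
  obtain ⟨g, ⟨V, hV⟩, hg⟩ := h c hc
  refine ⟨V, fun s a b x y z w hd h hb => ?_⟩
  refine le_trans (le_of_eq ?_) (hV s a b x y z w hd h)
  apply Finset.sum_congr rfl
  intro i hi
  obtain ⟨_, h2, h3, _, h5, h6⟩ := h i hi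
  have h7 := hb i hi
  unfold ls
  rw [hg _ (h2.le.trans (h3.trans h7)), hg _ (h3.trans h7), hg _ (h5.le.trans (h6.trans h7)),
    hg _ (h6.trans h7)]

end Pool.Agent.H91.KP
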