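import Pool.Agent.H91.KP.Basic
import Pool.Graph.R_seed8.H97R3.Config

/-!
# Homomorphisms to groups with the centralizer property kill the word

Adapted from the library module `Y72/Ko/Fix` (there for homeomorphisms of class `P` of `[0,1]`).
-/

set_option autoImplicit false

namespace Pool.Agent.H91.KP

variable {X : Type} [LinearOrder X] {𝒢 : Subgroup (X ≃o X)}

open Pool.Agent.H97R3.Config Pool.Agent.H97R3.Ord Equiv

/-- Every homomorphism to a group of order automorphisms with the centralizer property kills the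
word. -/
theorem killed (K : CentProp 𝒢) {G : Type} [Group G] {U V : Fin 4 → G} {t : Fin 3 → G} {c : G}
    (h : IsConfig U V t c) (φ : G →* 𝒢) : φ (word U V c) = 1 := by
  let F : G →* Perm X :=
    { toFun := fun g => ((φ g : 𝒢) : X ≃o X).toEquiv
      map_one' := by rw [map_one]; rfl
      map_mul' := fun x y => by rw [map_mul]; rfl }
  have mono : ∀ g, StrictMono (F g) := fun g => ((φ g : 𝒢) : X ≃o X).strictMono
  have Fcom : ∀ x y, F (com x y) = com (F x) (F y) := fun x y => map_com F x y
  let S : Fin 4 → Set X := fun i => {x | F (com (U i) (V i)) x ≠ x}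
  have F1 : ∀ (g : G) (i : Fin 4), Commute g (U i) → Commute g (V i) →
      ∀ x ∈ S i, F g x = x := by
    intro g i h1 h2 x hx
    have e1 : Commute ((φ g : 𝒢) : X ≃o X) (φ (U i) : 𝒢) := by
      have := h1.map φ
      exact this.map 𝒢.subtype
    have e2 : Commute ((φ g : 𝒢) : X ≃o X) (φ (V i) : 𝒢) := by
      have := h2.map φ
      exact this.map 𝒢.subtype
    have hx' : ((φ (U i) : X ≃o X) * (φ (V i)) *
        (φ (U i) : X ≃o X)⁻¹
        * (φ (V i) : X ≃o X)⁻¹) x ≠ x := by
      have e3 : ((φ (com (U i) (V i)) : 𝒢) : X ≃o X) =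
          (φ (U i) : X ≃o X) * (φ (V i)) *
          (φ (U i) : X ≃o X)⁻¹ *
          (φ (V i) : X ≃o X)⁻¹ := by
        rw [map_com]
        simp [com]
      rw [← e3]
      exact hx
    exact K _ (φ (U i)).2 _ (φ (V i)).2 _ (φ g).2 e1 e2 x hx'
  have Fcc : ∀ g i, Commute g (U i) → Commute g (V i) → Commute g (com (U i) (V i)) := by
    intro g i h1 h2
    unfold com
    exact ((h1.mul_right h2).mul_right h1.inv_right).mul_right h2.inv_right
  have hUj : ∀ i j : Fin 4, i ≠ j → Commute (com (U i) (V i)) (U j) ∧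
      Commute (com (U i) (V i)) (V j) := by
    intro i j hij
    have h1 := h.comm i j hij
    have h2 := h.comm j i hij.symm
    refine ⟨(Fcc (U j) i h2.1 h2.2.1).symm, ?_⟩
    exact (Fcc (V j) i h1.2.1.symm h2.2.2).symm
  have S_away : ∀ i j : Fin 4, i ≠ j → ∀ x ∈ S j, F (com (U i) (V i)) x = x := by
    intro i j hij
    exact F1 _ j (hUj i j hij).1 (hUj i j hij).2
  have S_move : ∀ (i : Fin 3) (x), x ∈ S i.castSucc ↔ F (t i) x ∈ S i.succ := by
    intro i x
    have h1 := h.move i
    have e1 : U i.succ = t i * U i.castSucc * (t i)⁻¹ := by rw [h1.1]; group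
    have e2 : V i.succ = t i * V i.castSucc * (t i)⁻¹ := by rw [h1.2]; group
    have e3 : com (U i.succ) (V i.succ) = t i * com (U i.castSucc) (V i.castSucc) * (t i)⁻¹ := by
      rw [e1, e2]; unfold com; group
    show F (com (U i.castSucc) (V i.castSucc)) x ≠ x ↔
      F (com (U i.succ) (V i.succ)) (F (t i) x) ≠ F (t i) x
    rw [e3]
    have e4 : (F (t i))⁻¹ ((F (t i)) x) = x := (F (t i)).symm_apply_apply x
    simp only [map_mul, map_inv, Perm.mul_apply]
    rw [e4]
    exact (F (t i)).injective.ne_iff.symm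
  have res := main_order (S 0) (S 1) (S 2) (S 3) (F (t 0)) (F (t 1)) (F (t 2)) (F c)
    (F (com (U 1) (V 1))) (F (com (U 2) (V 2)))
    (mono _) (mono _) (mono _) (mono _) (mono _) (mono _)
    (S_move 0) (S_move 1) (S_move 2)
    (F1 _ 2 (h.away 0 2 (by decide) (by decide)).1 (h.away 0 2 (by decide) (by decide)).2)
    (F1 _ 3 (h.away 0 3 (by decide) (by decide)).1 (h.away 0 3 (by decide) (by decide)).2)
    (F1 _ 0 (h.away 1 0 (by decide) (by decide)).1 (h.away 1 0 (by decide) (by decide)).2)
    (F1 _ 3 (h.away 1 3 (by decide) (by decide)).1 (h.away 1 3 (by decide) (by decide)).2)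
    (F1 _ 0 (h.away 2 0 (by decide) (by decide)).1 (h.away 2 0 (by decide) (by decide)).2)
    (F1 _ 1 (h.away 2 1 (by decide) (by decide)).1 (h.away 2 1 (by decide) (by decide)).2)
    (F1 _ 0 h.cU.1 h.cU.2.1)
    (F1 _ 3 h.cU.2.2.1 h.cU.2.2.2)
    (S_away 1 0 (by decide)) (S_away 1 2 (by decide)) (S_away 1 3 (by decide))
    (S_away 2 0 (by decide)) (S_away 2 3 (by decide))
    (fun x => Iff.rfl) (fun x => Iff.rfl)
  apply Subtype.ext
  apply RelIso.ext
  intro x
  have h2 := res x
  have h3 : F (word U V c) x = x := by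
    have : F (word U V c) = com (com (F c * F (com (U 1) (V 1)) * (F c)⁻¹) (F (com (U 2) (V 2))))
        (com (F c * F (com (U 2) (V 2)) * (F c)⁻¹) (F (com (U 1) (V 1)))) := by
      unfold word
      rw [Fcom, Fcom (c * com (U 1) (V 1) * c⁻¹), Fcom (c * com (U 2) (V 2) * c⁻¹)]
      simp only [map_mul, map_inv]
    rw [this]
    exact h2
  exact h3

end Pool.Agent.H91.KP
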