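import Pool.Agent.H91.KP.Half
import Pool.Graph.R_seed8.Y72.Ko.Incl

/-!
# Piecewise smooth homeomorphisms of the half-open interval belong to `HalfP`
-/

set_option autoImplicit false

namespace Pool.Agent.H91.KP

open Pool.Agent.Y72.Ko (PP PC2 pc2_mem)

/-- `f` is piecewise twice continuously differentiable on `[0,1)`: for every `c < 1` there is a finite
set `B` such that on every interval `[x,y]` with `y ≤ c` and with no point of `B` strictly between `x`
and `y`, the function `f` is the restriction of a `C²` function with positive derivative on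
`[x,y]`. -/
def HalfPC2 (f : unitInterval → unitInterval) : Prop :=
  ∀ c < 1, ∃ B : Set unitInterval, B.Finite ∧ ∀ x y : unitInterval, x ≤ y → y ≤ c →
    (∀ t ∈ B, ¬ (x < t ∧ t < y)) →
    ∃ F : ℝ → ℝ, ContDiff ℝ 2 F ∧ (∀ u : ℝ, (x : ℝ) ≤ u → u ≤ y → 0 < deriv F u) ∧
      ∀ z : unitInterval, x ≤ z → z ≤ y → (f z : ℝ) = F z

section ext

variable (f : unitInterval ≃o unitInterval) (c : unitInterval)

/-- the slope of the linear part -/
noncomputable def sl : ℝ := (1 - (f c : ℝ)) / (1 - c)

/-- the values of the linear extension -/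
noncomputable def vl (x : ℝ) : ℝ := (f c : ℝ) + sl f c * (x - c)

variable {f c}

lemma one_sub_pos (hc : c < 1) : (0 : ℝ) < 1 - c := sub_pos.2 (Subtype.coe_lt_coe.2 hc)

lemma sl_pos (hc : c < 1) : 0 < sl f c :=
  div_pos (one_sub_pos (app_lt_one f hc)) (one_sub_pos hc)

lemma vl_one (hc : c < 1) : vl f c 1 = 1 := by
  unfold vl sl
  rw [div_mul_cancel₀ _ (one_sub_pos hc).ne']
  ring

lemma vl_lt (hc : c < 1) {x y : ℝ} (h : x < y) : vl f c x < vl f c y := by
  unfold vl
  have := mul_lt_mul_of_pos_left (sub_lt_sub_right h (c : ℝ)) (sl_pos (f := f) hc)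
  linarith

lemma vl_c : vl f c c = f c := by
  unfold vl
  rw [sub_self, mul_zero, add_zero]

lemma vl_le (hc : c < 1) {x y : ℝ} (h : x ≤ y) : vl f c x ≤ vl f c y := by
  rcases h.eq_or_lt with h | h
  · rw [h]
  · exact (vl_lt hc h).le

lemma vl_mem (hc : c < 1) {x : unitInterval} (h : c ≤ x) : vl f c x ∈ Set.Icc (0 : ℝ) 1 := by
  constructor
  · have h1 : vl f c c ≤ vl f c x := vl_le hc (Subtype.coe_le_coe.2 h)
    rw [vl_c] at h1
    exact (f c).2.1.trans h1
  · rw [← vl_one (f := f) hc]
    exact vl_le hc x.2.2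

open Classical in
/-- `f` on `[0,c]`, linear on `[c,1]` -/
noncomputable def ex (f : unitInterval ≃o unitInterval) (c : unitInterval) (hc : c < 1)
    (x : unitInterval) : unitInterval :=
  if h : c ≤ x then ⟨vl f c x, vl_mem hc h⟩ else f x

lemma ex_of_le (hc : c < 1) {x : unitInterval} (h : c ≤ x) : (ex f c hc x : ℝ) = vl f c x := by
  unfold ex
  rw [dif_pos h]

lemma ex_of_ge (hc : c < 1) {x : unitInterval} (h : x ≤ c) : ex f c hc x = f x := by
  rcases h.eq_or_lt with h | h
  · apply Subtype.ext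
    rw [ex_of_le hc h.ge, h, vl_c]
  · unfold ex
    rw [dif_neg (not_le.2 h)]

lemma ex_mono (hc : c < 1) : StrictMono (ex f c hc) := by
  intro x y hxy
  rcases le_total y c with h | h
  · rw [ex_of_ge hc h, ex_of_ge hc (hxy.le.trans h)]
    exact f.strictMono hxy
  · rcases le_total c x with h2 | h2
    · rw [← Subtype.coe_lt_coe, ex_of_le hc h, ex_of_le hc h2]
      exact vl_lt hc (Subtype.coe_lt_coe.2 hxy)
    · rcases h2.eq_or_lt with h3 | h3
      · rw [← Subtype.coe_lt_coe, ex_of_le hc h, ex_of_le hc h3.ge]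
        exact vl_lt hc (Subtype.coe_lt_coe.2 hxy)
      · rw [ex_of_ge hc h2]
        refine lt_of_lt_of_le (f.strictMono h3) ?_
        rw [← Subtype.coe_le_coe, ex_of_le hc h, ← vl_c]
        exact vl_le hc (Subtype.coe_le_coe.2 h)

lemma ex_surj (hc : c < 1) : Function.Surjective (ex f c hc) := by
  intro v
  rcases le_total v (f c) with h | h
  · refine ⟨f.symm v, ?_⟩
    rw [ex_of_ge hc (by rwa [OrderIso.symm_apply_le]), OrderIso.apply_symm_apply]
  · have h1 : (f c : ℝ) ≤ v := Subtype.coe_le_coe.2 h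
    have hs := sl_pos (f := f) hc
    set x : ℝ := c + ((v : ℝ) - f c) / sl f c with hx
    have hxc : (c : ℝ) ≤ x := by
      have : 0 ≤ ((v : ℝ) - f c) / sl f c := div_nonneg (by linarith) hs.le
      linarith
    have hvx : vl f c x = v := by
      unfold vl
      rw [hx, add_sub_cancel_left, mul_div_cancel₀ _ hs.ne']
      ring
    have hx1 : x ≤ 1 := by
      by_contra hcon
      rw [not_le] at hcon
      have h2 := vl_lt (f := f) hc hcon
      rw [vl_one hc, hvx] at h2
      exact absurd h2 (not_lt.2 v.2.2)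
    refine ⟨⟨x, c.2.1.trans hxc, hx1⟩, ?_⟩
    apply Subtype.ext
    rw [ex_of_le hc (show c ≤ _ from hxc)]
    exact hvx

/-- the extension as an automorphism -/
noncomputable def exi (f : unitInterval ≃o unitInterval) (c : unitInterval) (hc : c < 1) :
    unitInterval ≃o unitInterval :=
  (ex_mono (f := f) hc).orderIsoOfSurjective _ (ex_surj hc)

lemma exi_apply (hc : c < 1) (x : unitInterval) : exi f c hc x = ex f c hc x := rfl

end ext

/-- **Piecewise `C²` homeomorphisms of `[0,1)` belong to `HalfP`.** -/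
theorem halfPC2_mem {f : unitInterval ≃o unitInterval} (hf : HalfPC2 f) : f ∈ HalfP := by
  refine mem_halfP fun c hc => ⟨exi f c hc, pc2_mem ?_, fun x hx => ?_⟩
  · obtain ⟨B, hB, h⟩ := hf c hc
    refine ⟨insert c B, hB.insert c, fun x y hxy hno => ?_⟩
    have hno' : ∀ t ∈ B, ¬ (x < t ∧ t < y) := fun t ht => hno t (Set.mem_insert_of_mem _ ht)
    rcases le_or_gt y c with hyc | hyc
    · obtain ⟨F, h1, h2, h3⟩ := h x y hxy hyc hno'
      refine ⟨F, h1, h2, fun z hz1 hz2 => ?_⟩
      rw [exi_apply, ex_of_ge hc (hz2.trans hyc)]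
      exact h3 z hz1 hz2
    · have hcx : c ≤ x := by
        by_contra hcon
        exact hno c (Set.mem_insert _ _) ⟨not_le.1 hcon, hyc⟩
      refine ⟨fun u => (f c : ℝ) + sl f c * (u - c), by fun_prop, fun u _ _ => ?_, fun z hz1 _ => ?_⟩
      · have h1 : HasDerivAt (fun u : ℝ => (f c : ℝ) + sl f c * (u - c)) (sl f c) u := by
          have h2 := ((hasDerivAt_id u).sub_const (c : ℝ)).const_mul (sl f c)
          have h3 := h2.const_add (f c : ℝ)
          simpa using h3
        rw [h1.deriv]
        exact sl_pos hc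
      · rw [exi_apply, ex_of_le hc (hcx.trans hz1)]
        rfl
  · rw [exi_apply, ex_of_ge hc hx]

end Pool.Agent.H91.KP
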