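import Pool.Agent.H91.KP.Basic

/-!
# Groups whose elements have tame sets of fixed points
-/

set_option autoImplicit false

namespace Pool.Agent.H91.KP

/-- For every element `f` of the group and every point `p` which is not the greatest one, the set of
the fixed points of `f` that are at most `p` is a union of finitely many convex sets. -/
def Tame {X : Type} [LinearOrder X] (𝒢 : Subgroup (X ≃o X)) : Prop :=
  ∀ f ∈ 𝒢, ∀ p q : X, p < q → ∃ C : Set (Set X), C.Finite ∧ (∀ A ∈ C, A.OrdConnected) ∧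
    {x : X | x ≤ p ∧ f x = x} = ⋃₀ C

/-- The set of the fixed points of every element of the group is a union of finitely many convex
sets. -/
def FiniteFix {X : Type} [LinearOrder X] (𝒢 : Subgroup (X ≃o X)) : Prop :=
  ∀ f ∈ 𝒢, ∃ C : Set (Set X), C.Finite ∧ (∀ A ∈ C, A.OrdConnected) ∧ {x : X | f x = x} = ⋃₀ C

variable {X : Type} [LinearOrder X] {𝒢 : Subgroup (X ≃o X)}

/-- A group is tame if the set of the fixed points of every element is a union of finitely many
convex sets. -/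
theorem tame_of_finite (T : FiniteFix 𝒢) : Tame 𝒢 := by
  intro f hf p _ _
  obtain ⟨C, hC, hA, hfix⟩ := T f hf
  refine ⟨(fun A => Set.Iic p ∩ A) '' C, hC.image _, ?_, ?_⟩
  · rintro _ ⟨A, hAC, rfl⟩
    have := hA A hAC
    exact Set.OrdConnected.inter Set.ordConnected_Iic this
  · ext x
    simp only [Set.mem_ofPred_eq, Set.mem_sUnion, Set.mem_image, exists_exists_and_eq_and,
      Set.mem_inter_iff, Set.mem_Iic]
    have h1 : f x = x ↔ ∃ A ∈ C, x ∈ A := by
      have h2 : x ∈ {x : X | f x = x} ↔ x ∈ ⋃₀ C := by rw [hfix]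
      exact h2
    rw [h1]
    constructor
    · rintro ⟨h2, A, h3, h4⟩
      exact ⟨A, h3, h2, h4⟩
    · rintro ⟨A, h3, h2, h4⟩
      exact ⟨h2, A, h3, h4⟩

/-- **Tame groups have the Kopell property.** -/
theorem Tame.kopell (T : Tame 𝒢) : Kopell 𝒢 := by
  intro h hh w hw hc p hp hwp z h1 h2
  have hpq : p < h⁻¹ p := by
    have h3 := h⁻¹.strictMono hp
    rwa [RelIso.inv_apply_self] at h3
  obtain ⟨C, hC, hA, hfix⟩ := T w hw p _ hpq
  have hle : ∀ n : ℕ, (h ^ n) p ≤ p := by
    intro n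
    have h3 := pow_anti hp.le (Nat.zero_le n)
    simpa using h3
  have hfixn : ∀ n : ℕ, w ((h ^ n) p) = (h ^ n) p := by
    intro n
    rw [← comm_apply (hc.pow_left n), hwp]
  have hmem : ∀ n : ℕ, ∃ A ∈ C, (h ^ n) p ∈ A := by
    intro n
    have h3 : (h ^ n) p ∈ {x : X | x ≤ p ∧ w x = x} := ⟨hle n, hfixn n⟩
    rw [hfix] at h3
    exact h3
  choose A hAC hAm using hmem
  obtain ⟨i, j, hij, he⟩ : ∃ i j : ℕ, i < j ∧ A i = A j := by
    have : Finite C := hC
    obtain ⟨i, j, hne, he⟩ := Finite.exists_ne_map_eq_of_infinite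
      (fun n : ℕ => (⟨A n, hAC n⟩ : C))
    have he' : A i = A j := congrArg Subtype.val he
    rcases lt_or_gt_of_ne hne with h3 | h3
    · exact ⟨i, j, h3, he'⟩
    · exact ⟨j, i, h3, he'.symm⟩
  have hz1 : (h ^ j) p ≤ (h ^ i) z := by
    have h4 : (h ^ j) p ≤ (h ^ (i + 1)) p := pow_anti hp.le (by omega)
    rw [pow_apply_succ] at h4
    exact h4.trans ((h ^ i).monotone h1)
  have hz2 : (h ^ i) z ≤ (h ^ i) p := (h ^ i).monotone h2
  have h5 : (h ^ i) z ∈ A i := by
    refine (hA (A i) (hAC i)).out ?_ (hAm i) ⟨hz1, hz2⟩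
    rw [he]
    exact hAm j
  have h6 : (h ^ i) z ∈ {x : X | x ≤ p ∧ w x = x} := by
    rw [hfix]
    exact ⟨A i, hAC i, h5⟩
  have h7 : w ((h ^ i) z) = (h ^ i) z := h6.2
  rw [← comm_apply (hc.pow_left i)] at h7
  exact (h ^ i).injective h7

end Pool.Agent.H91.KP
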